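import Pool.Agent.helper92.ISO.SpecC

/-!
# Project ISO (MP_069684_lc), row HIN: linear hashing is injective
-/

set_option autoImplicit false

open Filter Topology

namespace Pool.Agent.ISO

open Pool.Agent.PB

open Classical in
/-- the number of the matrices for which two different words collide -/
theorem HIN_pair (hIPC : IPC_stmt) (w r : ℕ) (y y' : Fin w → Bool) (h : y ≠ y') :
    2 ^ r * (Finset.univ.filter fun A : Fin r → Fin w → Bool => lin A y = lin A y').card =
      Fintype.card (Fin r → Fin w → Bool) := by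
  have h1 := (hIPC w y y').1 h
  have h2 : (Finset.univ.filter fun A : Fin r → Fin w → Bool => lin A y = lin A y') =
      Fintype.piFinset (fun _ : Fin r => Finset.univ.filter fun a : Fin w → Bool => ip a y = ip a y') := by
    ext A
    rw [Finset.mem_filter, Fintype.mem_piFinset]
    constructor
    · rintro ⟨-, h3⟩ i
      rw [Finset.mem_filter]
      exact ⟨Finset.mem_univ _, congrFun h3 i⟩
    · intro h3
      refine ⟨Finset.mem_univ _, ?_⟩
      funext i
      have h4 := h3 i
      rw [Finset.mem_filter] at h4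
      exact h4.2
  rw [h2, Fintype.card_piFinset, Finset.prod_const, Finset.card_univ, Fintype.card_fin, ← mul_pow, h1]
  simp only [Fintype.card_pi, Fintype.card_bool, Finset.prod_const, Finset.card_univ,
    Fintype.card_fin]

theorem HIN_proof (hIPC : IPC_stmt) : HIN_stmt := by
  classical
  intro w r m Z hZ
  obtain ⟨N, hN⟩ : ∃ N, N = Fintype.card (Fin r → Fin w → Bool) := ⟨_, rfl⟩
  rw [← hN]
  -- every bad matrix is in at least two ordered pairs
  have h1 : ∀ A ∈ (Finset.univ.filter fun A : Fin r → Fin w → Bool =>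
      ¬ Set.InjOn (lin A) (Z : Set (Fin w → Bool))),
      2 ≤ (Z.offDiag.filter fun q => lin A q.1 = lin A q.2).card := by
    intro A hA
    rw [Finset.mem_filter] at hA
    obtain ⟨-, hA⟩ := hA
    unfold Set.InjOn at hA
    push Not at hA
    obtain ⟨y, hy, y', hy', he, hne⟩ := hA
    refine Nat.succ_le_of_lt (Finset.one_lt_card.2 ⟨(y, y'), ?_, (y', y), ?_, ?_⟩)
    · rw [Finset.mem_filter, Finset.mem_offDiag]
      exact ⟨⟨hy, hy', hne⟩, he⟩
    · rw [Finset.mem_filter, Finset.mem_offDiag]
      exact ⟨⟨hy', hy, hne.symm⟩, he.symm⟩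
    · intro h
      exact hne (congrArg Prod.fst h)
  have h2 : 2 * (Finset.univ.filter fun A : Fin r → Fin w → Bool =>
      ¬ Set.InjOn (lin A) (Z : Set (Fin w → Bool))).card ≤
      ∑ A : Fin r → Fin w → Bool, (Z.offDiag.filter fun q => lin A q.1 = lin A q.2).card := by
    calc 2 * (Finset.univ.filter fun A : Fin r → Fin w → Bool =>
        ¬ Set.InjOn (lin A) (Z : Set (Fin w → Bool))).card
        = ∑ _A ∈ (Finset.univ.filter fun A : Fin r → Fin w → Bool =>
            ¬ Set.InjOn (lin A) (Z : Set (Fin w → Bool))), 2 := by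
          rw [Finset.sum_const, smul_eq_mul, mul_comm]
      _ ≤ ∑ A ∈ (Finset.univ.filter fun A : Fin r → Fin w → Bool =>
            ¬ Set.InjOn (lin A) (Z : Set (Fin w → Bool))),
            (Z.offDiag.filter fun q => lin A q.1 = lin A q.2).card := Finset.sum_le_sum h1
      _ ≤ _ := Finset.sum_le_sum_of_subset_of_nonneg (Finset.filter_subset _ _)
            fun _ _ _ => Nat.zero_le _
  have h3 : ∑ A : Fin r → Fin w → Bool, (Z.offDiag.filter fun q => lin A q.1 = lin A q.2).card =
      ∑ q ∈ Z.offDiag, (Finset.univ.filter fun A : Fin r → Fin w → Bool =>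
        lin A q.1 = lin A q.2).card := by
    simp only [Finset.card_filter]
    exact Finset.sum_comm
  have h4 : 2 ^ r * ∑ q ∈ Z.offDiag, (Finset.univ.filter fun A : Fin r → Fin w → Bool =>
        lin A q.1 = lin A q.2).card = Z.offDiag.card * N := by
    rw [Finset.mul_sum, Finset.sum_congr rfl (fun q hq => ?_), Finset.sum_const, smul_eq_mul]
    rw [Finset.mem_offDiag] at hq
    rw [hN]
    exact HIN_pair hIPC w r q.1 q.2 hq.2.2
  have h5 : Z.offDiag.card ≤ m ^ 2 := by
    rw [Finset.offDiag_card]
    calc Z.card * Z.card - Z.card ≤ Z.card * Z.card := Nat.sub_le _ _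
      _ ≤ m * m := Nat.mul_le_mul hZ hZ
      _ = m ^ 2 := (sq m).symm
  calc 2 * 2 ^ r * (Finset.univ.filter fun A : Fin r → Fin w → Bool =>
        ¬ Set.InjOn (lin A) (Z : Set (Fin w → Bool))).card
      = 2 ^ r * (2 * (Finset.univ.filter fun A : Fin r → Fin w → Bool =>
        ¬ Set.InjOn (lin A) (Z : Set (Fin w → Bool))).card) := by ring
    _ ≤ 2 ^ r * ∑ q ∈ Z.offDiag, (Finset.univ.filter fun A : Fin r → Fin w → Bool =>
        lin A q.1 = lin A q.2).card := Nat.mul_le_mul_left _ (h2.trans h3.le)
    _ = Z.offDiag.card * N := h4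
    _ ≤ m ^ 2 * N := Nat.mul_le_mul_right _ h5

end Pool.Agent.ISO
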